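import Mathlib

set_option autoImplicit false
open Matrix

namespace Pool.Agent.Results.MP_58c1a9_gt.FormExists

/-- Basis `x_i x_j` (`i < j`) of `H²(ℤ⁸)`. -/
abbrev I2 := {p : Fin 8 × Fin 8 // p.1 < p.2}

/-- Basis `x_a x_b x_c x_d` (`a < b < c < d`) of `H⁴(ℤ⁸)`. -/
abbrev I4 := {q : Fin 8 × Fin 8 × Fin 8 × Fin 8 // q.1 < q.2.1 ∧ q.2.1 < q.2.2.1 ∧ q.2.2.1 < q.2.2.2}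

/-- Number of inversions of a list. -/
def inv : List (Fin 8) → ℕ
  | [] => 0
  | a :: l => l.countP (fun b => b < a) + inv l

/-- `⟨x_{l₁} ∪ ⋯ ∪ x_{l₈}, [T]⟩` for a list of eight indices: zero if an index repeats, otherwise
the sign of the permutation. -/
def sgn (l : List (Fin 8)) : ℤ := if l.Nodup then (-1) ^ inv l else 0

/-- Gram matrix of `B_ω(x, y) = ⟨x ∪ y ∪ ω, [T]⟩` for `ω = ∑ ω_q x_q`. -/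
def gram (ω : I4 → ℤ) : Matrix I2 I2 ℤ := fun p r =>
  ∑ q : I4, ω q * sgn [p.1.1, p.1.2, r.1.1, r.1.2, q.1.1, q.1.2.1, q.1.2.2.1, q.1.2.2.2]

abbrev J := Fin 8 ⊕ (Fin 10 × Fin 2)

/-- Gram matrix of `E₈ ⊕ 10 H`. -/
def target : Matrix J J ℤ := fromBlocks CartanMatrix.E₈ 0 0
  (fun s t => if s.1 = t.1 ∧ s.2 ≠ t.2 then 1 else 0)

def omL : List (ℕ × ℤ) := [(668, 1), (93, -1), (101, 1), (165, 1), (677, -1), (86, 1), (94, 1), (158, 1), (670, -1), (678, 1), (230, 1), (1254, 1), (110, 1), (686, -1), (238, 1), (750, 1), (1262, 1), (302, 1), (814, 1), (1326, 1), (1838, -1), (87, -1), (167, 1), (743, 1), (1255, 1), (239, -1), (1263, -1), (815, -1), (247, 1), (759, -1), (1271, 1), (375, -1)]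

def om (q : I4) : ℤ :=
  (omL.lookup (q.1.1.val * 512 + q.1.2.1.val * 64 + q.1.2.2.1.val * 8 + q.1.2.2.2.val)).getD 0

def i2 (p : I2) : ℕ := p.1.1.val * (15 - p.1.1.val) / 2 + p.1.2.val - p.1.1.val - 1

def ij : J → ℕ
  | .inl a => a.val
  | .inr s => 8 + 2 * s.1.val + s.2.val

def look (t : List (List ℤ)) (a b : ℕ) : ℤ := (t.getD a []).getD b 0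

def tP : List (List ℤ) := [
  [7, 11, -1, -4, 9, -24, 16, 10, 8, -1, -4, -1, 8, 7, -9, 0, -4, 5, 3, -23, 19, -9, -12, -5, 20, -14, -7, -6],
  [2, 5, -1, -2, 2, -9, 7, 5, 4, 1, -4, 0, 3, 4, -3, -1, -2, 2, 2, -8, 8, -5, -6, 0, 7, -7, -3, -1],
  [-2, -1, 0, 1, -5, 10, -4, -4, -2, 2, 1, -1, -3, -1, 4, 0, 0, -1, -1, 9, -6, 1, 4, 3, -8, 4, 3, 3],
  [0, -4, 1, 1, 1, 2, -3, -2, -1, -1, 2, 1, -1, -2, 1, 1, 1, -1, -1, 2, -3, 3, 2, 0, -2, 3, 1, 0],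
  [-1, 1, -1, 0, -2, 0, 0, 0, -1, 0, -1, 0, 0, 0, 0, -2, 1, -1, 0, 1, 1, -1, -1, 0, 0, -1, 0, 0],
  [-2, -5, 2, 2, -1, 8, -6, -3, -3, 0, 3, 0, -3, -3, 3, 2, 1, -1, -1, 6, -7, 4, 5, 1, -7, 6, 2, 2],
  [1, 3, -1, -1, 1, -3, 2, 2, 2, -1, -2, 0, 2, 2, -2, -1, -1, 1, 1, -3, 2, -1, -1, -2, 4, -2, -1, -1],
  [-2, -3, -1, 0, -1, 1, -2, -2, -2, 1, 1, 0, -2, -3, 1, 0, 1, -1, -1, 4, -3, 2, 2, 1, -3, 2, 1, 0],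
  [1, 0, 0, 0, 0, 0, 0, 0, 0, 0, 0, 0, 0, 0, 0, 0, 0, 0, 0, 0, 0, 0, 0, 0, 0, 0, 0, 0],
  [0, 0, 0, 0, 0, 0, 0, 0, 0, 0, 0, 0, 0, 0, 0, 0, 0, -1, 0, 0, 0, 0, 0, 0, 0, 0, 0, 0],
  [0, 1, 0, 0, 0, 0, 0, 0, 0, 0, 0, 0, 0, 0, 0, 0, 0, 0, 0, 0, 0, 0, 0, 0, 0, 0, 0, 0],
  [0, 0, 0, 0, 0, 0, 0, 0, 0, 0, 0, 0, 1, 0, 0, 0, 0, 0, 0, 0, 0, 0, 0, 0, 0, 0, 0, 0],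
  [0, 0, 0, 0, 0, 1, 0, 0, 0, 0, 0, 0, 0, 0, 0, 0, 0, 0, 0, 0, 0, 0, 0, 0, 0, 0, 0, 0],
  [-1, 0, 0, 0, 0, 0, 0, 0, 0, 1, 0, 0, 0, 0, 0, 0, 0, 0, 0, 0, 0, 0, 0, 0, 0, 0, 0, 0],
  [0, 0, 0, 0, 0, 0, 0, 1, 0, 0, 0, 0, 0, 0, 0, 0, 0, 0, 0, 0, 0, 0, 0, 0, 0, 0, 0, 0],
  [0, 0, 0, 0, 0, 1, -1, 0, 0, 0, 0, 0, 0, 0, 0, 0, 0, 0, 0, 0, 0, 0, 0, 0, 0, 0, 0, 0],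
  [0, 0, 0, 0, 0, 0, 0, 0, 0, 0, 0, 1, 0, 0, 0, 0, 0, 0, 0, 0, 0, 0, 0, 0, 0, 0, 0, 0],
  [0, 1, 0, 0, -1, 1, 0, 0, 0, 0, 0, 0, 0, 0, 0, 0, 0, 0, 0, 0, 0, 0, 0, 0, 0, 0, 0, 0],
  [0, 0, 0, 0, 0, 0, 0, 0, 0, 0, 0, 1, 0, 0, 0, 0, 0, 0, 0, 0, 0, 0, 0, 0, 0, 0, 0, 1],
  [1, 1, -1, 0, 0, 0, 0, 0, 0, 0, 0, 0, 0, 0, 0, 0, 0, 0, 0, 0, 0, 0, 0, 0, 0, 0, 0, 0],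
  [0, 0, 0, 0, 0, 1, 0, 0, 0, 0, 0, 0, 0, 0, 0, 0, 1, 0, 0, 0, 0, 0, 0, 0, 0, 0, 0, -1],
  [1, 1, -1, 0, 0, -1, 1, 0, 1, 0, 0, 0, 0, 0, 0, 0, 0, 0, -1, 0, 0, 0, 0, 0, 0, 0, 0, 0],
  [0, 1, 0, 0, 0, 0, 1, 0, 0, 0, 1, 0, 0, 0, 0, 1, 0, 0, -1, 0, 0, 0, 0, 0, 0, 0, 0, 0],
  [-1, -1, 0, 0, 0, -2, 0, 1, 0, 0, -1, 0, 0, 0, 0, -1, -1, 0, 0, 0, 0, 0, 0, 0, 0, 0, 0, 1],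
  [0, 1, -1, 0, -1, 0, 0, 0, 0, 0, -1, 0, 0, 0, 0, -1, 0, 0, 0, 1, 0, 0, 0, 0, 0, 0, 0, 0],
  [2, 0, 1, 1, 1, 1, -1, 0, 0, -1, 1, 0, 0, 0, 0, 1, 0, 0, 0, -1, 0, 1, 0, 0, 0, 1, 0, 0],
  [1, 2, 0, 0, 0, 2, 0, 0, 1, 0, 0, 0, 0, 1, 0, 1, 0, 0, 0, 0, 0, 0, 0, 0, 0, 0, 0, 0],
  [0, -1, 0, 0, 1, -1, 0, -1, 0, 0, 1, 0, -1, -1, 0, 1, 1, -1, -1, 0, 0, 1, 0, 0, 0, 0, 0, -1]]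

def tQ : List (List ℤ) := [
  [0, 0, 0, 0, 0, 0, 0, 0, 1, 0, 0, 0, 0, 0, 0, 0, 0, 0, 0, 0, 0, 0, 0, 0, 0, 0, 0, 0],
  [0, 0, 0, 0, 0, 0, 0, 0, 0, 0, 1, 0, 0, 0, 0, 0, 0, 0, 0, 0, 0, 0, 0, 0, 0, 0, 0, 0],
  [0, 0, 0, 0, 0, 0, 0, 0, 1, 0, 1, 0, 0, 0, 0, 0, 0, 0, 0, -1, 0, 0, 0, 0, 0, 0, 0, 0],
  [2, 4, 4, 6, 6, 5, 5, 3, -1, 0, -1, 0, 0, 0, 0, 0, 0, -1, 0, -1, 0, 0, 2, -2, -1, 2, -1, -1],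
  [0, 0, 0, 0, 0, 0, 0, 0, 0, 0, 1, 0, 1, 0, 0, 0, 0, -1, 0, 0, 0, 0, 0, 0, 0, 0, 0, 0],
  [0, 0, 0, 0, 0, 0, 0, 0, 0, 0, 0, 0, 1, 0, 0, 0, 0, 0, 0, 0, 0, 0, 0, 0, 0, 0, 0, 0],
  [0, 0, 0, 0, 0, 0, 0, 0, 0, 0, 0, 0, 1, 0, 0, -1, 0, 0, 0, 0, 0, 0, 0, 0, 0, 0, 0, 0],
  [0, 0, 0, 0, 0, 0, 0, 0, 0, 0, 0, 0, 0, 0, 1, 0, 0, 0, 0, 0, 0, 0, 0, 0, 0, 0, 0, 0],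
  [0, 0, 0, 0, 0, 0, 0, 0, -1, 0, 0, 0, 0, 0, 1, 0, 0, 0, 0, -1, -1, 1, -1, -1, 0, 0, 0, 0],
  [0, 0, 0, 0, 0, 0, 0, 0, 1, 0, 0, 0, 0, 1, 0, 0, 0, 0, 0, 0, 0, 0, 0, 0, 0, 0, 0, 0],
  [-2, -3, -3, -6, -5, -4, -3, -3, -1, 0, 0, 0, 0, 1, 2, 0, 1, 0, 0, 0, -2, 1, -2, -1, 1, 0, -2, 2],
  [0, 0, 0, 0, 0, 0, 0, 0, 0, 0, 0, 0, 0, 0, 0, 0, 1, 0, 0, 0, 0, 0, 0, 0, 0, 0, 0, 0],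
  [0, 0, 0, 0, 0, 0, 0, 0, 0, 0, 0, 1, 0, 0, 0, 0, 0, 0, 0, 0, 0, 0, 0, 0, 0, 0, 0, 0],
  [-2, -3, -3, -6, -5, -4, -3, -3, 0, 0, -1, 0, -1, 1, 0, 0, 1, 0, 0, 1, 0, 0, -1, 1, 1, 0, -1, 2],
  [0, 0, 0, 1, -1, 0, -1, -2, 0, 0, 1, 0, 0, 0, 1, 0, -1, 1, 0, 2, 0, -1, 0, 0, 2, -2, -1, 1],
  [2, 3, 3, 6, 5, 4, 3, 3, 0, 0, -1, 0, -1, -1, -1, 0, -1, 0, 0, 0, 1, -1, 2, 0, -1, 0, 2, -2],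
  [0, 0, 0, 0, 0, 0, 0, 0, 0, 0, 0, 0, -1, 0, 0, 0, -1, 0, 1, 0, 1, 0, 0, 0, 0, 0, 0, 0],
  [0, 0, 0, 0, 0, 0, 0, 0, 0, -1, 0, 0, 0, 0, 0, 0, 0, 0, 0, 0, 0, 0, 0, 0, 0, 0, 0, 0],
  [0, 0, 0, 0, 0, 0, 0, 0, -1, 0, 0, 0, 0, 0, 1, -1, 0, 0, 0, 0, -1, 0, -1, -1, 0, 0, 0, 0],
  [0, 0, 0, 0, 0, 0, 0, 0, 0, 0, 0, 0, 0, 0, 1, 0, 0, -1, 0, -1, -1, 0, 0, -1, 1, 0, 0, 0],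
  [-1, -3, -2, -5, -4, -3, -3, -2, -1, 0, -1, 1, 0, 0, 1, 0, 1, 0, 1, 0, 0, 0, -2, 1, 2, 0, 0, 2],
  [-2, -3, -3, -6, -5, -4, -3, -3, 0, -1, 0, 1, 1, 1, 1, -1, 1, 1, 0, 1, -1, 0, -2, 1, 1, 0, -1, 3],
  [-1, -2, -1, -5, -4, -2, -1, -2, -1, 1, -1, 1, -1, 0, 1, 1, 1, 0, 2, 0, 1, 0, -1, 0, 2, 1, -3, 3],
  [-1, -1, -1, -3, -3, -2, -1, -1, -1, 1, 0, 0, -1, 0, 0, 1, 0, 0, 1, 0, 1, 0, 0, 0, 1, 1, -2, 1],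
  [1, 2, 2, 4, 2, 2, 2, 1, 0, 1, 0, -1, -1, 0, 0, 1, -2, 0, 1, 0, 1, -1, 2, -1, 1, 0, -1, -1],
  [0, -1, -1, 0, -1, -1, -2, 0, 0, 1, 0, -1, -1, 0, -1, 0, -1, 0, 0, 0, 1, 0, 0, 1, 1, -1, 2, -2],
  [3, 4, 5, 9, 8, 5, 5, 5, 0, -1, 0, 0, 0, -1, -1, -1, -1, 0, 0, 0, 2, -1, 2, 1, -4, 1, 3, -3],
  [0, 0, 0, 0, 0, 0, 0, 0, 0, 0, 0, 0, 0, 0, 0, 0, -1, 0, 1, 0, 0, 0, 0, 0, 0, 0, 0, 0]]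

def tG : List (List ℤ) := [
  [0, 0, 0, 0, 0, 0, 0, 0, 0, 0, 0, 0, 0, 0, 0, 0, 0, -1, 0, 0, 0, -1, 1, 1, 1, 1, -1, 0],
  [0, 0, 0, 0, 0, 0, 0, 0, 0, 0, 0, 0, 1, 0, 0, 0, 0, 0, 0, 0, 1, 1, 1, 0, -1, -1, 0, 0],
  [0, 0, 0, 0, 0, 0, 0, 0, 0, 0, 0, 0, 1, 0, 0, 0, -1, -1, 0, 0, 0, 0, 0, 0, -1, 0, -1, -1],
  [0, 0, 0, 0, 0, 0, 0, 0, 0, 0, -1, -1, -1, 0, 0, -1, 0, 1, 0, 0, 0, 1, 0, 0, 0, 0, -1, 0],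
  [0, 0, 0, 0, 0, 0, 0, 0, 0, 1, 0, -1, 1, 0, 1, 0, 1, 0, 0, 0, 0, 1, 0, 0, 1, 0, 0, 1],
  [0, 0, 0, 0, 0, 0, 0, 0, 0, 1, 1, 0, 0, 1, 0, -1, 0, 0, 0, 0, 0, 1, 0, 0, 0, 0, -1, 0],
  [0, 0, 0, 0, 0, 0, 0, -1, -1, 1, -1, 0, 0, 1, -1, 0, 0, 0, -1, -1, -1, 0, -1, 0, 0, 1, 0, 0],
  [0, 0, 0, 0, 0, 0, -1, 0, 0, 0, 0, 0, 0, 0, 0, 0, 0, 0, -1, 0, 0, -1, 1, 1, 1, 0, -1, 0],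
  [0, 0, 0, 0, 0, 0, -1, 0, 0, 0, 0, 0, 0, 0, 1, 0, 0, 1, 0, 0, 0, 0, 0, 0, 0, -1, 0, -1],
  [0, 0, 0, 0, 1, 1, 1, 0, 0, 0, 0, 0, 0, -1, 0, -1, -1, -1, 0, 0, 0, 0, 0, 0, 0, 0, -1, 0],
  [0, 0, 0, -1, 0, 1, -1, 0, 0, 0, 0, 0, 0, 0, 1, 0, 0, 1, 0, 0, 1, 0, 0, 0, 1, 0, 0, 0],
  [0, 0, 0, -1, -1, 0, 0, 0, 0, 0, 0, 0, 0, 0, 1, 0, 0, 0, 0, -1, 0, 1, 0, 0, 0, 0, 0, 0],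
  [0, 1, 1, -1, 1, 0, 0, 0, 0, 0, 0, 0, 0, -1, 1, -1, 0, 0, 0, 0, -1, 0, -1, 0, 0, 0, 0, 0],
  [0, 0, 0, 0, 0, 1, 1, 0, 0, -1, 0, 0, -1, 0, 0, 0, 0, 0, 0, 0, 0, 0, 0, 0, 1, 0, 0, 1],
  [0, 0, 0, 0, 1, 0, -1, 0, 1, 0, 1, 1, 1, 0, 0, 0, 0, 0, 0, 0, 0, -1, 0, 0, 0, 0, 1, 1],
  [0, 0, 0, -1, 0, -1, 0, 0, 0, -1, 0, 0, -1, 0, 0, 0, 0, 0, 0, 0, 0, 0, 0, 0, -1, 0, 0, 0],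
  [0, 0, -1, 0, 1, 0, 0, 0, 0, -1, 0, 0, 0, 0, 0, 0, 0, 0, 0, 0, 0, -1, 0, 0, -1, 0, 0, 0],
  [-1, 0, -1, 1, 0, 0, 0, 0, 1, -1, 1, 0, 0, 0, 0, 0, 0, 0, 1, 0, 1, 0, 1, 1, 0, 0, 0, 0],
  [0, 0, 0, 0, 0, 0, -1, -1, 0, 0, 0, 0, 0, 0, 0, 0, 0, 1, 0, 0, 0, 0, 0, 0, 0, -1, -1, 0],
  [0, 0, 0, 0, 0, 0, -1, 0, 0, 0, 0, -1, 0, 0, 0, 0, 0, 0, 0, 0, 0, 0, 0, 1, 1, 0, 0, 0],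
  [0, 1, 0, 0, 0, 0, -1, 0, 0, 0, 1, 0, -1, 0, 0, 0, 0, 1, 0, 0, 0, 0, -1, 0, 0, 0, 0, 0],
  [-1, 1, 0, 1, 1, 1, 0, -1, 0, 0, 0, 1, 0, 0, -1, 0, -1, 0, 0, 0, 0, 0, -1, 0, 0, 0, 0, 0],
  [1, 1, 0, 0, 0, 0, -1, 1, 0, 0, 0, 0, -1, 0, 0, 0, 0, 1, 0, 0, -1, -1, 0, 0, 0, 0, 0, 0],
  [1, 0, 0, 0, 0, 0, 0, 1, 0, 0, 0, 0, 0, 0, 0, 0, 0, 1, 0, 1, 0, 0, 0, 0, 0, 0, 0, 0],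
  [1, -1, -1, 0, 1, 0, 0, 1, 0, 0, 1, 0, 0, 1, 0, -1, -1, 0, 0, 1, 0, 0, 0, 0, 0, 0, 0, 0],
  [1, -1, 0, 0, 0, 0, 1, 0, -1, 0, 0, 0, 0, 0, 0, 0, 0, 0, -1, 0, 0, 0, 0, 0, 0, 0, 0, 0],
  [-1, 0, -1, -1, 0, -1, 0, -1, 0, -1, 0, 0, 0, 0, 1, 0, 0, 0, -1, 0, 0, 0, 0, 0, 0, 0, 0, 0],
  [0, 0, -1, 0, 1, 0, 0, 0, -1, 0, 0, 0, 0, 1, 1, 0, 0, 0, 0, 0, 0, 0, 0, 0, 0, 0, 0, 0]]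

def tW : List (List ℤ) := [
  [0, 0, 0, 0, 0, 0, 0, 0, 0, 0, -1, 0, 0, -1, 0, 1, 0, 0, 0, 0, 0, -1, -1, -1, 0, 1, 1, 0],
  [0, 0, 0, 2, 0, 0, 0, 0, 0, 0, 0, 0, 0, 0, -1, 0, 0, 0, 0, 0, -1, 0, 1, 1, 0, -2, -1, 0],
  [0, 0, 0, 0, 0, 0, 0, 0, 0, 0, 2, 0, 0, 2, -1, -2, 0, 0, 0, 0, 2, 2, 4, 2, -1, -2, -2, 0],
  [0, 0, 0, -2, 0, 0, 0, 0, 0, 0, -1, 0, 0, -1, 3, 1, 0, 0, 0, 0, -1, -1, -3, -1, 2, 3, 1, 0],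
  [0, 0, 0, 1, 0, 0, 0, 0, 0, 0, 0, 0, 0, 0, -3, 0, 0, 0, 0, 0, 0, 0, -1, -1, -2, -1, 2, 0],
  [0, 0, 0, -1, 0, 0, 0, 0, 0, 0, 0, 0, 0, 0, 2, 0, 0, 0, 0, 0, 1, 0, 1, 0, 0, 1, -3, 0],
  [0, 0, 0, 2, 0, 0, 0, 0, 0, 0, 1, 0, 0, 1, 0, -1, 0, 0, 0, 0, -1, 1, 2, 1, 1, -3, 0, 0],
  [0, 0, 0, 1, 0, 0, 0, 0, 0, 0, -3, 0, 0, -3, -3, 3, 0, 0, 0, 0, -1, -3, -3, -1, 0, 2, 5, 0],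
  [0, 0, 0, 0, 0, 0, 0, 0, 0, 0, 0, 0, 0, 0, 0, 0, 0, -1, 0, 0, 0, -1, 1, 1, 1, 1, -1, 0],
  [1, 0, 1, -1, 0, 0, 0, 0, -1, 1, -1, 0, 0, 0, 0, 0, 0, 0, -1, 0, -1, 0, -1, -1, 0, 0, 0, 0],
  [0, 0, 0, 0, 0, 0, 0, 0, 0, 0, 0, 0, 1, 0, 0, 0, 0, 0, 0, 0, 1, 1, 1, 0, -1, -1, 0, 0],
  [0, 1, 1, -1, 1, 0, 0, 0, 0, 0, 0, 0, 0, -1, 1, -1, 0, 0, 0, 0, -1, 0, -1, 0, 0, 0, 0, 0],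
  [0, 0, 0, 0, 0, 0, 0, 0, 0, 1, 1, 0, 0, 1, 0, -1, 0, 0, 0, 0, 0, 1, 0, 0, 0, 0, -1, 0],
  [0, 0, 0, 0, 1, 1, 1, 0, 0, 0, 0, 0, 0, -1, 0, -1, -1, 0, 0, 0, 0, 1, -1, -1, -1, -1, 0, 0],
  [0, 0, 0, 0, 0, 0, -1, 0, 0, 0, 0, 0, 0, 0, 0, 0, 0, 0, -1, 0, 0, -1, 1, 1, 1, 0, -1, 0],
  [0, 0, 0, 0, 0, 0, 0, 1, 1, 0, 2, 0, 0, 0, 1, -1, 0, 0, 1, 1, 1, 1, 1, 0, 0, -1, -1, 0],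
  [0, 0, 0, -1, -1, 0, 0, 0, 0, 0, 0, 0, 0, 0, 1, 0, 0, 0, 0, -1, 0, 1, 0, 0, 0, 0, 0, 0],
  [0, 0, 0, 0, 0, 0, 0, 0, 0, 0, 1, 1, 0, 1, -1, -1, -1, 0, 0, 0, 1, 1, 1, 0, -2, -1, -1, -1],
  [0, 0, -1, -1, 0, 0, 0, 0, -1, 0, 0, 0, 0, 1, 2, 0, 0, 0, 0, -1, 0, 1, 0, 0, 0, 0, 0, 0],
  [0, 0, 0, 0, 0, 0, 0, 0, 0, 0, 0, 0, 0, 0, 0, 0, 1, 0, 0, 0, 1, 0, 2, 1, 1, 0, 0, 1],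
  [0, 0, 0, 0, 0, 0, 0, 0, 1, 0, 1, 0, 0, 0, -1, -1, 0, 0, 0, 0, 0, 0, 0, 0, -1, 0, -1, 0],
  [0, 0, 0, 0, 0, 0, 0, 0, -1, 0, -2, 0, 0, 0, 0, 1, 1, 0, -1, -1, 0, -1, 1, 1, 1, 1, 2, 0],
  [0, 0, 0, -2, 0, 0, 0, 0, -1, 0, -1, 0, 0, 1, 0, 0, 0, 0, -1, -1, 1, 1, 0, 0, -1, 1, 1, 0],
  [0, 0, 0, 2, 0, 0, 0, 0, -1, 0, -2, 0, 0, -1, 0, 2, 0, 0, -1, 0, -2, -2, -1, 0, 2, 0, 2, 0],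
  [0, 0, 0, 2, 0, 0, 0, 0, 0, 0, 0, 0, 0, 0, -2, 0, 0, 0, 0, 0, 0, 0, 1, 1, 0, -1, 1, 0],
  [0, 0, 0, -1, 0, 0, 0, 0, 0, 0, 1, 0, 0, 1, 2, -1, 0, 0, 0, 1, 2, 1, 2, 1, 1, 1, -4, 0],
  [0, 0, 0, -1, 0, 0, 0, 0, 0, 0, 2, 0, 0, 2, 1, -2, 0, 0, 0, 0, 2, 3, 3, 1, -1, -2, -3, 0],
  [0, 0, 0, -1, 0, 0, 0, 0, 0, 0, -2, 0, 0, -1, -1, 2, 0, 0, 0, 0, 0, -1, -3, -2, -1, 2, 3, 0]]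

def P : Matrix J I2 ℤ := fun a b => look tP (ij a) (i2 b)
def Q : Matrix I2 J ℤ := fun a b => look tQ (i2 a) (ij b)
def G : Matrix I2 I2 ℤ := fun a b => look tG (i2 a) (i2 b)
def W : Matrix J I2 ℤ := fun a b => look tW (ij a) (i2 b)

lemma h1 : ∀ a b, gram om a b = G a b := by decide +kernel
lemma h2 : ∀ a b, ∑ k, P a k * G k b = W a b := by decide +kernel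
lemma h3 : ∀ a b, ∑ k, W a k * P b k = target a b := by decide +kernel
lemma h4 : ∀ a b, ∑ k, P a k * Q k b = if a = b then 1 else 0 := by decide +kernel
lemma h5 : ∀ a b, ∑ k, Q a k * P k b = if a = b then 1 else 0 := by decide +kernel

theorem result : ∃ (ω : I4 → ℤ) (A : Matrix J I2 ℤ) (B : Matrix I2 J ℤ),
    A * B = 1 ∧ B * A = 1 ∧ A * gram ω * Aᵀ = target := by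
  refine ⟨om, P, Q, ?_, ?_, ?_⟩
  · ext a b; rw [mul_apply, h4, one_apply]
  · ext a b; rw [mul_apply, h5, one_apply]
  · have e1 : gram om = G := by ext a b; exact h1 a b
    have e2 : P * G = W := by ext a b; rw [mul_apply, h2]
    rw [e1, e2]
    ext a b; rw [mul_apply, ← h3]; rfl

end Pool.Agent.Results.MP_58c1a9_gt.FormExists
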